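import Pool.Agent.N816.S21.TorE
import Pool.Agent.N218.T21.Tam

/-!
# The torsion of the twists of `X_0(21)` by all the squarefree integers other than one:
# the minimal equations
-/

set_option autoImplicit false

namespace Pool.Agent.N816.S21

open Pool.Agent.N218.T21 (EE)
open Pool.Agent.N637.P21 (WN Em)

/-- **The order of the torsion subgroup is four times an odd number.**  (This is
`Pool.Agent.N877.S21.Tor4 (EE m)`, unfolded.) -/
theorem tor : ∀ m : ℤ, Squarefree m → m ≠ 1 → ∃ t : ℕ, Odd t ∧
    Nat.card (AddCommGroup.torsion ((EE m).map (Int.castRingHom ℚ)).toAffine.Point) = 4 * t := by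
  intro m hs h1
  by_cases h4 : m % 4 = 1
  · have e : EE m = WN m := if_pos h4
    rw [e]
    exact tors_WN h4 hs h1
  · have e : EE m = Em m := if_neg h4
    rw [e]
    exact tors_Em hs h1

end Pool.Agent.N816.S21
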