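import Pool.Agent.N637.P21.Bsd

/-!
# The torsion of the twists of `X_0(21)` by all the squarefree integers other than one

`E_m : y² = x (x - 9 m) (x + 7 m)`.
-/

set_option autoImplicit false

namespace Pool.Agent.N816.S21

open WeierstrassCurve
open Pool.Agent.TH841.SH (IsR)
open Pool.Agent.N875.X15 (dbl_sq dbl_T two_tor sq_cancel card_four finite_tors tors_congr)
open Pool.Agent.N637.P21 (EQm isR T4 T4_card T4_two mem_T4 fg_E WN WNQ vr WN_Δ_ne)

open scoped Classical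

variable {m : ℤ}

/-- a squarefree integer which is a square is one -/
theorem eq_one_of_sq (hs : Squarefree m) (h : IsSquare (m : ℚ)) : m = 1 := by
  rw [Rat.isSquare_intCast_iff] at h
  obtain ⟨r, hr⟩ := h
  have h1 : IsUnit r := hs r ⟨1, by rw [hr]; ring⟩
  rcases Int.isUnit_iff.1 h1 with rfl | rfl
  · rw [hr]; ring
  · rw [hr]; ring

theorem not_sq_seven : ¬ IsSquare (7 : ℚ) := by
  have e : (7 : ℚ) = ((7 : ℤ) : ℚ) := by norm_num
  rw [e, Rat.isSquare_intCast_iff]
  rintro ⟨r, hr⟩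
  have h7 : (7 : ℤ) % 4 = 3 := by norm_num
  rw [hr] at h7
  have h8 : r % 4 = 0 ∨ r % 4 = 1 ∨ r % 4 = 2 ∨ r % 4 = 3 := by omega
  rcases h8 with h8 | h8 | h8 | h8 <;> rw [Int.mul_emod, h8] at h7 <;> norm_num at h7

/-- there is no rational point of order four -/
theorem no_four (hs : Squarefree m) (h1 : m ≠ 1) (P : (EQm m).toAffine.Point)
    (h : (P + P) + (P + P) = 0) : P + P = 0 := by
  by_contra hne
  have hR := isR m
  obtain ⟨e, he, hP2, hee⟩ := two_tor hR two_ne_zero h hne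
  have hm0 : (m : ℚ) ≠ 0 := by exact_mod_cast hs.ne_zero
  rcases P with _ | ⟨x, y, hxy⟩
  · exact hne (add_zero _)
  have hy : y ≠ 0 := by
    rintro rfl
    exact hne (dbl_T hR hxy)
  have k1 := dbl_sq hR two_ne_zero hxy hy he hP2
  have k2 := dbl_sq hR.rot two_ne_zero hxy hy he hP2
  have k3 := dbl_sq hR.rot.rot two_ne_zero hxy hy he hP2
  rcases hee with rfl | rfl | rfl
  · have e2 : (((0 : ℤ)) : ℚ) - ((9 * m : ℤ) : ℚ) = -9 * m := by push_cast; ring
    have e3 : (((0 : ℤ)) : ℚ) - ((-7 * m : ℤ) : ℚ) = 7 * m := by push_cast; ring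
    rw [e2] at k2
    rw [e3] at k3
    have n2 := k2.nonneg
    have n3 := k3.nonneg
    apply hm0
    linarith
  · have : ((9 * m : ℤ) : ℚ) - ((0 : ℤ) : ℚ) = 3 * 3 * m := by push_cast; ring
    rw [this] at k1
    exact h1 (eq_one_of_sq hs (sq_cancel (by norm_num : (3 * 3 : ℚ) ≠ 0) ⟨3, rfl⟩ k1))
  · apply not_sq_seven
    have e1 : ((-7 * m : ℤ) : ℚ) - ((9 * m : ℤ) : ℚ) = 4 * 4 * -(m : ℚ) := by push_cast; ring
    have e2 : ((-7 * m : ℤ) : ℚ) - ((0 : ℤ) : ℚ) = -(m : ℚ) * 7 := by push_cast; ring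
    rw [e1] at k2
    rw [e2] at k1
    have k4 := sq_cancel (by norm_num : (4 * 4 : ℚ) ≠ 0) ⟨4, rfl⟩ k2
    exact sq_cancel (neg_ne_zero.2 hm0) k4 k1

/-- **The order of the torsion subgroup.** -/
theorem tors_Em (hs : Squarefree m) (h1 : m ≠ 1) :
    ∃ t : ℕ, Odd t ∧ Nat.card (AddCommGroup.torsion (EQm m).toAffine.Point) = 4 * t := by
  have hm := hs.ne_zero
  have : Finite (AddCommGroup.torsion (EQm m).toAffine.Point) := finite_tors (fg_E hm)
  refine card_four ?_ ?_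
  · have e : {x : AddCommGroup.torsion (EQm m).toAffine.Point // x + x = 0} ≃ (T4 hm : Finset _) :=
      { toFun := fun x => ⟨x.1.1, mem_T4 hm (congrArg Subtype.val x.2)⟩
        invFun := fun x => ⟨⟨x.1, by
          have h1 : IsOfFinAddOrder x.1 := isOfFinAddOrder_iff_nsmul_eq_zero.2
            ⟨2, two_pos, by rw [two_nsmul]; exact T4_two hm _ x.2⟩
          exact h1⟩, Subtype.ext (T4_two hm _ x.2)⟩
        left_inv := fun x => rfl
        right_inv := fun x => rfl }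
    rw [Nat.card_congr e, Nat.card_eq_fintype_card, Fintype.card_coe, T4_card]
  · rintro ⟨x, hx⟩ h
    apply Subtype.ext
    exact no_four hs h1 x (congrArg Subtype.val h)

/-- the order of the torsion subgroup, for the minimal equation -/
theorem tors_WN (h4 : m % 4 = 1) (hs : Squarefree m) (h1 : m ≠ 1) : ∃ t : ℕ, Odd t ∧
    Nat.card (AddCommGroup.torsion (WNQ m).toAffine.Point) = 4 * t := by
  obtain ⟨t, ht, h⟩ := tors_Em hs h1
  refine ⟨t, ht, ?_⟩
  rw [← h]
  exact tors_congr ((vr h4 ℚ).equiv (WN_Δ_ne h4 ℚ))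

end Pool.Agent.N816.S21
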